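import Pool.Agent.helper69.AD.GS2

/-!
GM2: uniqueness and equivariance of generators of stabilisers.
-/

open scoped MatrixGroups LinearAlgebra.Projectivization
open Matrix UpperHalfPlane

namespace AdSBend

noncomputable section

theorem GM2_neg_neg (g : SL(2, ℝ)) : -(-g) = g := neg_neg g

theorem GM2_symm {g h : SL(2, ℝ)} (H : PEq g h) : PEq h g := by
  rcases H with H | H
  · exact Or.inl H.symm
  · right; rw [H, neg_neg]

theorem GM2_trans {g h k : SL(2, ℝ)} (H : PEq g h) (H' : PEq h k) : PEq g k := by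
  rcases H with H | H <;> rcases H' with H' | H'
  · left; rw [H, H']
  · right; rw [H, H']
  · right; rw [H, H']
  · left; rw [H, H', neg_neg]

theorem GM2_mul {g h g' h' : SL(2, ℝ)} (H : PEq g h) (H' : PEq g' h') :
    PEq (g * g') (h * h') := by
  rcases H with H | H <;> rcases H' with H' | H'
  · left; rw [H, H']
  · right; rw [H, H', mul_neg]
  · right; rw [H, H', neg_mul]
  · left; rw [H, H', neg_mul_neg]

theorem GM2_inv {g h : SL(2, ℝ)} (H : PEq g h) : PEq g⁻¹ h⁻¹ := by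
  rcases H with H | H
  · left; rw [H]
  · right
    rw [H, inv_eq_iff_mul_eq_one, neg_mul_neg, mul_inv_cancel]

theorem GM2_refl (g : SL(2, ℝ)) : PEq g g := Or.inl rfl

theorem GM2_pow {g h : SL(2, ℝ)} (H : PEq g h) (n : ℕ) : PEq (g ^ n) (h ^ n) := by
  induction n with
  | zero => left; simp
  | succ n ih => rw [pow_succ, pow_succ]; exact GM2_mul ih H

theorem GM2_zpow {g h : SL(2, ℝ)} (H : PEq g h) (n : ℤ) : PEq (g ^ n) (h ^ n) := by
  cases n with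
  | ofNat n => simpa using GM2_pow H n
  | negSucc n =>
    rw [zpow_negSucc, zpow_negSucc]
    exact GM2_inv (GM2_pow H (n + 1))

theorem GM2_Dm_add (s t : ℝ) : Dm s * Dm t = Dm (s + t) := by
  apply Subtype.ext
  simp only [Dm]
  change (!![Real.exp (s / 2), 0; 0, Real.exp (-(s / 2))] : Matrix (Fin 2) (Fin 2) ℝ) *
    !![Real.exp (t / 2), 0; 0, Real.exp (-(t / 2))] =
    !![Real.exp ((s + t) / 2), 0; 0, Real.exp (-((s + t) / 2))]
  rw [Matrix.mul_fin_two]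
  have h1 : Real.exp (s / 2) * Real.exp (t / 2) = Real.exp ((s + t) / 2) := by
    rw [← Real.exp_add]; congr 1; ring
  have h2 : Real.exp (-(s / 2)) * Real.exp (-(t / 2)) = Real.exp (-((s + t) / 2)) := by
    rw [← Real.exp_add]; congr 1; ring
  simp [h1, h2]

theorem GM2_Dm_zero : Dm 0 = 1 := by
  apply Subtype.ext
  simp only [Dm]
  change (!![Real.exp (0 / 2), 0; 0, Real.exp (-(0 / 2))] : Matrix (Fin 2) (Fin 2) ℝ) = 1
  simp [Matrix.one_fin_two]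

theorem GM2_Dm_inv (t : ℝ) : (Dm t)⁻¹ = Dm (-t) := by
  rw [inv_eq_iff_mul_eq_one, GM2_Dm_add]
  simp [GM2_Dm_zero]

theorem GM2_Dm_pow (t : ℝ) (n : ℕ) : (Dm t) ^ n = Dm (n * t) := by
  induction n with
  | zero => simp [GM2_Dm_zero]
  | succ n ih => rw [pow_succ, ih, GM2_Dm_add]; congr 1; push_cast; ring

theorem GM2_Dm_zpow (t : ℝ) (n : ℤ) : (Dm t) ^ n = Dm (n * t) := by
  cases n with
  | ofNat n => simpa using GM2_Dm_pow t n
  | negSucc n =>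
    rw [zpow_negSucc, GM2_Dm_pow, GM2_Dm_inv]
    congr 1
    push_cast
    ring

theorem GM2_Dm_inj {s t : ℝ} (H : PEq (Dm s) (Dm t)) : s = t := by
  have key : ∀ g h : SL(2, ℝ), g = h → g.1 0 0 = h.1 0 0 := by
    intro g h H; rw [H]
  have e1 : ∀ u : ℝ, (Dm u).1 0 0 = Real.exp (u / 2) := by intro u; simp [Dm]
  rcases H with H | H
  · have := key _ _ H
    rw [e1, e1] at this
    have := Real.exp_injective this
    linarith
  · have := key _ _ H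
    have e2 : (-(Dm t)).1 0 0 = -(Real.exp (t / 2)) := by
      rw [← e1 t]
      rfl
    rw [e1, e2] at this
    have h1 := Real.exp_pos (s / 2)
    have h2 := Real.exp_pos (t / 2)
    linarith

theorem GM2_pos (g : SL(2, ℝ)) : PEq g (pos g) := by
  unfold pos
  split_ifs with h
  · exact Or.inl rfl
  · right; exact (neg_neg g).symm

theorem GM2_conj_zpow (F g : SL(2, ℝ)) (n : ℤ) : (F * g * F⁻¹) ^ n = F * g ^ n * F⁻¹ :=
  conj_zpow

/-- conjugates of PEq elements -/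
theorem GM2_conj {g h : SL(2, ℝ)} (F : SL(2, ℝ)) (H : PEq g h) :
    PEq (F * g * F⁻¹) (F * h * F⁻¹) :=
  GM2_mul (GM2_mul (GM2_refl F) H) (GM2_refl F⁻¹)

theorem GM2_unconj {g h : SL(2, ℝ)} (F : SL(2, ℝ)) (H : PEq (F * g * F⁻¹) (F * h * F⁻¹)) :
    PEq g h := by
  have := GM2_conj F⁻¹ H
  simpa [mul_assoc] using this

theorem GM2_unique (h8 : BD8_stmt) (Γ : Subgroup SL(2, ℝ)) (p : Bd × Bd) (g g' : SL(2, ℝ))
    (hg : IsGen Γ p g) (hg' : IsGen Γ p g') : PEq g g' := by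
  obtain ⟨hgΓ, hga, hgg⟩ := hg
  obtain ⟨hgΓ', hga', hgg'⟩ := hg'
  obtain ⟨c1, c2, -⟩ := h8
  obtain ⟨F, t, hF, -, -⟩ := (c1 g p).1 hga
  obtain ⟨e1, l1⟩ := c2 g F p hga hF
  obtain ⟨e2, l2⟩ := c2 g' F p hga' hF
  set a := len g with ha
  set b := len g' with hb
  have E1 : PEq g (F * Dm a * F⁻¹) := by rw [← e1]; exact GM2_pos g
  have E2 : PEq g' (F * Dm b * F⁻¹) := by rw [← e2]; exact GM2_pos g'
  obtain ⟨n, hn⟩ := hgg g' hgΓ' hga'.2.1 hga'.2.2.1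
  obtain ⟨m, hm⟩ := hgg' g hgΓ hga.2.1 hga.2.2.1
  have key : ∀ (x y : SL(2, ℝ)) (u v : ℝ) (k : ℤ), PEq x (F * Dm u * F⁻¹) →
      PEq y (F * Dm v * F⁻¹) → PEq y (x ^ k) → v = k * u := by
    intro x y u v k hx hy hxy
    apply GM2_Dm_inj
    apply GM2_unconj F
    refine GM2_trans (GM2_symm hy) (GM2_trans hxy ?_)
    have := GM2_zpow hx k
    rwa [GM2_conj_zpow, GM2_Dm_zpow] at this
  have k1 : b = n * a := key g g' a b n E1 E2 hn
  have k2 : a = m * b := key g' g b a m E2 E1 hm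
  have hn0 : (0 : ℝ) < n := by
    by_contra h
    have h := not_lt.1 h
    have : (n : ℝ) * a ≤ 0 := mul_nonpos_of_nonpos_of_nonneg h l1.le
    linarith
  have hm0 : (0 : ℝ) < m := by
    by_contra h
    have h := not_lt.1 h
    have : (m : ℝ) * b ≤ 0 := mul_nonpos_of_nonpos_of_nonneg h l2.le
    linarith
  have hn1 : (1 : ℝ) ≤ n := by
    have : (0 : ℤ) < n := by exact_mod_cast hn0
    exact_mod_cast this
  have hm1 : (1 : ℝ) ≤ m := by
    have : (0 : ℤ) < m := by exact_mod_cast hm0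
    exact_mod_cast this
  have hab : a = b := by
    have h1 : a ≤ b := by rw [k1]; nlinarith
    have h2 : b ≤ a := by rw [k2]; nlinarith
    linarith
  rw [← hab] at E2
  exact GM2_trans E1 (GM2_symm E2)

theorem GM2_fix {γ g : SL(2, ℝ)} {x : Bd} (h : g • (γ • x) = γ • x) :
    (γ⁻¹ * g * γ) • x = x := by
  rw [mul_smul, mul_smul, h, inv_smul_smul]

theorem GM2_fix' {γ g : SL(2, ℝ)} {x : Bd} (h : g • x = x) :
    (γ * g * γ⁻¹) • (γ • x) = γ • x := by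
  rw [mul_smul, mul_smul, inv_smul_smul, h]

theorem GM2_closed (Γ : Subgroup SL(2, ℝ)) (x y : Bd) (h : IsClosedGeodesic Γ x y)
    (γ : SL(2, ℝ)) (hγ : γ ∈ Γ) : IsClosedGeodesic Γ (γ • x) (γ • y) := by
  obtain ⟨hne, δ, hδ, h1, h2, h3, h4⟩ := h
  refine ⟨fun H => hne (smul_left_cancel γ H), γ * δ * γ⁻¹,
    Γ.mul_mem (Γ.mul_mem hγ hδ) (Γ.inv_mem hγ), ?_, ?_, GM2_fix' h3, GM2_fix' h4⟩
  · intro H
    apply h1
    have : δ = γ⁻¹ * (γ * δ * γ⁻¹) * γ := by group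
    rw [this, H]
    group
  · intro H
    apply h2
    have : δ = γ⁻¹ * (γ * δ * γ⁻¹) * γ := by group
    rw [this, H, mul_neg, mul_one, neg_mul, inv_mul_cancel]

theorem GM2_conjGen (h8 : BD8_stmt) (Γ : Subgroup SL(2, ℝ)) (p : Bd × Bd) (g : SL(2, ℝ))
    (hg : IsGen Γ p g) (γ : SL(2, ℝ)) (hγ : γ ∈ Γ) :
    IsGen Γ (γ • p.1, γ • p.2) (γ * g * γ⁻¹) := by
  obtain ⟨hgΓ, hga, hgg⟩ := hg
  obtain ⟨-, -, -, -, -, c6, -⟩ := h8
  refine ⟨Γ.mul_mem (Γ.mul_mem hγ hgΓ) (Γ.inv_mem hγ), c6 g γ p hga, ?_⟩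
  intro δ hδ h1 h2
  obtain ⟨n, hn⟩ := hgg (γ⁻¹ * δ * γ) (Γ.mul_mem (Γ.mul_mem (Γ.inv_mem hγ) hδ) hγ)
    (GM2_fix h1) (GM2_fix h2)
  refine ⟨n, ?_⟩
  have := GM2_conj γ hn
  rw [← GM2_conj_zpow] at this
  have e : γ * (γ⁻¹ * δ * γ) * γ⁻¹ = δ := by group
  rwa [e] at this

theorem GM2_invGen (h8 : BD8_stmt) (Γ : Subgroup SL(2, ℝ)) (p : Bd × Bd) (g : SL(2, ℝ))
    (hg : IsGen Γ p g) : IsGen Γ (p.2, p.1) g⁻¹ := by
  obtain ⟨hgΓ, hga, hgg⟩ := hg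
  obtain ⟨-, -, -, -, -, -, c7, -⟩ := h8
  refine ⟨Γ.inv_mem hgΓ, c7 g p hga, ?_⟩
  intro δ hδ h1 h2
  obtain ⟨n, hn⟩ := hgg δ hδ h2 h1
  refine ⟨-n, ?_⟩
  rw [_root_.inv_zpow', neg_neg]
  exact hn

/-- GM2 -/
theorem GM2 (h8 : BD8_stmt) (h1 : GM1_stmt) : GM2_stmt := by
  intro Γ hΓ
  refine ⟨fun p g g' => GM2_unique h8 Γ p g g', ?_, ?_⟩
  · intro p hp γ hγ
    exact GM2_unique h8 Γ _ _ _ (h1 Γ hΓ (γ • p.1, γ • p.2) (GM2_closed Γ _ _ hp γ hγ))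
      (GM2_conjGen h8 Γ p _ (h1 Γ hΓ p hp) γ hγ)
  · intro p hp
    have hp' : IsClosedGeodesic Γ p.2 p.1 := by
      obtain ⟨hne, δ, hδ, h1, h2, h3, h4⟩ := hp
      exact ⟨hne.symm, δ, hδ, h1, h2, h4, h3⟩
    exact GM2_unique h8 Γ _ _ _ (h1 Γ hΓ (p.2, p.1) hp') (GM2_invGen h8 Γ p _ (h1 Γ hΓ p hp))

end

end AdSBend
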